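import Mathlib
import Pool.Agent.H723R2.LSWDens
import Pool.Agent.H723R2.LSWWander

set_option autoImplicit false

/-!
The integers in wandering domains of `f₀` and in the basins of its integer cycles form completely
invariant sets; complete invariance under `f₀`, under the `3x+1` map `T` and under the Collatz map.
-/

namespace Pool.Agent.Q163.WD

open Pool.Agent.H384R2.Fatou Pool.Agent.H723R2.LSW Filter Topology

/-- complete invariance of a set of integers under `f₀` -/
def CInv (S : Set ℤ) : Prop := ∀ n m : ℤ, f₀ (n : ℂ) = m → (n ∈ S ↔ m ∈ S)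

theorem cinv_iff {S : Set ℤ} : CInv S ↔ ∀ x : ℤ, x ∈ S ↔ T x ∈ S := by
  constructor
  · intro h x
    exact h x (T x) (f₀_int x)
  · intro h n m hnm
    rw [f₀_int] at hnm
    have : T n = m := by exact_mod_cast hnm
    rw [h n, this]

theorem cinv_C {S : Set ℤ} (hS : CInv S) (x : ℤ) :
    x ∈ S ↔ (if x % 2 = 0 then x / 2 else 3 * x + 1) ∈ S := by
  have h := cinv_iff.1 hS
  by_cases hx : x % 2 = 0
  · rw [if_pos hx]
    have h1 := h x
    unfold T at h1
    rwa [if_pos hx] at h1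
  · rw [if_neg hx]
    have h1 := h x
    have h2 := h (3 * x + 1)
    unfold T at h1 h2
    rw [if_neg hx] at h1
    rw [if_pos (by omega)] at h2
    rw [h1, h2]

/-- the integers in wandering domains -/
def WI : Set ℤ := {n | IsWanderingDomain f₀ (FatouComponent f₀ n)}

/-- the integers in the basin of the cycle of `a` -/
def BI (a : ℤ) (p : ℕ) : Set ℤ :=
  {n | (n : ℂ) ∈ FatouSet f₀ ∧ ¬ IsWanderingDomain f₀ (FatouComponent f₀ n) ∧
    ∃ k : ℕ, ∀ z ∈ FatouComponent f₀ n,
      Tendsto (fun m : ℕ => f₀^[k + p * m] z) atTop (𝓝 (a : ℂ))}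

theorem mem_WI (n : ℤ) : n ∈ WI ↔ Wild n := wandering_iff n

theorem WI_cinv : CInv WI := by
  rw [cinv_iff]
  intro x
  rw [mem_WI, mem_WI]
  exact ⟨wild_mer (mer_self_iter x 1), wild_mer (mer_self_iter x 1).symm⟩

theorem mem_BI {a : ℤ} {p : ℕ} (hp : 0 < p) (ha : f₀^[p] (a : ℂ) = a) (n : ℤ) :
    n ∈ BI a p ↔ Mer n a := basin_iff hp (cast_iter.1 ha)

theorem BI_cinv {a : ℤ} {p : ℕ} (hp : 0 < p) (ha : f₀^[p] (a : ℂ) = a) : CInv (BI a p) := by
  rw [cinv_iff]
  intro x
  rw [mem_BI hp ha, mem_BI hp ha]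
  exact ⟨(mer_self_iter x 1).symm.trans, (mer_self_iter x 1).trans⟩

theorem self_mem_BI {a : ℤ} {p : ℕ} (hp : 0 < p) (ha : f₀^[p] (a : ℂ) = a) : a ∈ BI a p :=
  (mem_BI hp ha a).2 (Mer.refl a)

theorem zero_not_WI : (0 : ℤ) ∉ WI := by
  rw [mem_WI]
  intro h
  have := h 1 0 (by decide)
  omega

/-- no integer lies in a wandering domain if none of either sign does -/
theorem none_of_sides (h : ∀ s : ℤ, s = 1 ∨ s = -1 → ∀ x : ℤ, 0 < s * x → x ∉ WI) (n : ℤ) : n ∉ WI := by
  rcases lt_trichotomy n 0 with h1 | h1 | h1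
  · exact h (-1) (Or.inr rfl) n (by omega)
  · rw [h1]; exact zero_not_WI
  · exact h 1 (Or.inl rfl) n (by omega)

theorem one_not_WI : (1 : ℤ) ∉ WI := by
  rw [mem_WI]
  intro h
  have := h 2 0 (by decide)
  omega

theorem neg_one_not_WI : (-1 : ℤ) ∉ WI := by
  rw [mem_WI]
  intro h
  have := h 1 0 (by decide)
  omega

end Pool.Agent.Q163.WD
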