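import Pool.Agent.Results.MP_a247fa_nt.OddCriticalPoints
import Pool.Agent.H723R2.LSWDens

set_option autoImplicit false

/-!
The critical points of Chamberland's map in the intervals `(n, n + 1/2)`, `n` odd, and the sets of
integers invariant under the `3x+1` map which describe their fates.
-/

namespace Pool.Agent.Q163.WD.Crit

open Filter Topology
open Pool.Agent.H723R2.LSW (Mer Wild)
open Pool.Agent.H934R2.Ch (T_iter_pos)

/-- Chamberland's map. -/
noncomputable def f (x : ℝ) : ℝ := x + 1 / 4 - (2 * x + 1) / 4 * Real.cos (Real.pi * x)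

/-- The `3x+1` map. -/
def T (n : ℕ) : ℕ := if n % 2 = 0 then n / 2 else (3 * n + 1) / 2

/-- Points of attracting cycles contained in `(0,∞)`. -/
def AttractingPoint (y : ℝ) : Prop :=
  0 < y ∧ 0 < Function.minimalPeriod f y ∧ |deriv (f^[Function.minimalPeriod f y]) y| < 1

/-- The orbit of `x` converges to the cycle of `y`. -/
def Attracts (y x : ℝ) : Prop :=
  ∃ j : ℕ, Tendsto (fun k : ℕ => f^[k * Function.minimalPeriod f y + j] x) atTop (𝓝 y)

/-- `x` is attracted by the cycle `A₁ = {1, 2}` or by the cycle `A₂ = {a, f a}`, or its orbit ends in a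
point of `[1.02, 1.05]` of period two. -/
def KnownFate (a x : ℝ) : Prop :=
  Attracts 1 x ∨ Attracts a x ∨ ∃ K, f^[K] x ∈ Set.Icc (1.02 : ℝ) 1.05 ∧ f^[K + 2] x = f^[K] x

/-- The orbits of `x` and `y` merge: they have, from some times on, the same integral parts. -/
def Merge (x y : ℝ) : Prop := ∃ i j : ℕ, ∀ k : ℕ, ⌊f^[k + i] x⌋ = ⌊f^[k + j] y⌋

/-- orbits which follow `T` -/
def Fol (n : ℕ) (x : ℝ) : Prop := ∀ k : ℕ, ((T^[k] n : ℕ) : ℝ) ≤ f^[k] x ∧
  f^[k] x ≤ (T^[k] n : ℕ) + 5 / (6 * (2 * ((T^[k] n : ℕ) : ℝ) + 1))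

theorem zT (k n : ℕ) : Pool.Agent.H723R2.LSW.T^[k] (n : ℤ) = ((T^[k] n : ℕ) : ℤ) := by
  induction k with
  | zero => rfl
  | succ k ih =>
    rw [Function.iterate_succ_apply', Function.iterate_succ_apply', ih]
    generalize T^[k] n = m
    unfold Pool.Agent.H723R2.LSW.T T
    by_cases h : m % 2 = 0
    · rw [if_pos h, if_pos (by omega)]; omega
    · rw [if_neg h, if_neg (by omega)]; omega

theorem T_pos' {n : ℕ} (hn : 1 ≤ n) (k : ℕ) : 1 ≤ T^[k] n := T_iter_pos hn k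

theorem fol_floor {n : ℕ} (hn : 1 ≤ n) {x : ℝ} (h : Fol n x) (k : ℕ) : ⌊f^[k] x⌋ = (T^[k] n : ℕ) := by
  obtain ⟨h1, h2⟩ := h k
  have h3 : (1 : ℝ) ≤ (T^[k] n : ℕ) := by exact_mod_cast T_pos' hn k
  have h4 : 5 / (6 * (2 * ((T^[k] n : ℕ) : ℝ) + 1)) < 1 := by
    rw [div_lt_one (by positivity)]
    linarith
  rw [Int.floor_eq_iff]
  push_cast
  constructor
  · exact h1
  · linarith

theorem merge_iff {n m : ℕ} (hn : 1 ≤ n) (hm : 1 ≤ m) {x y : ℝ} (hx : Fol n x) (hy : Fol m y) :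
    Merge x y ↔ Mer (n : ℤ) (m : ℤ) := by
  constructor
  · rintro ⟨i, j, h⟩
    have h1 := h 0
    rw [Nat.zero_add, Nat.zero_add, fol_floor hn hx, fol_floor hm hy] at h1
    exact ⟨i, j, by rw [zT, zT]; exact h1⟩
  · rintro ⟨i, j, h⟩
    refine ⟨i, j, fun k => ?_⟩
    rw [fol_floor hn hx, fol_floor hm hy]
    rw [← zT, ← zT, Function.iterate_add_apply, Function.iterate_add_apply, h]

/-- **the critical points** -/
theorem exists_crit : ∃ (a : ℝ) (c : ℕ → ℝ),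
    (a ∈ Set.Icc (1.19 : ℝ) 1.196 ∧ f (f a) = a ∧
      ∀ y, y = 1 ∨ y = 2 ∨ y = a ∨ y = f a → AttractingPoint y) ∧
    (∀ n : ℕ, n % 2 = 1 → (n : ℝ) < c n ∧ c n < n + 1 / 2 ∧ deriv f (c n) = 0 ∧
      ∀ x : ℝ, (n : ℝ) < x → x < n + 1 / 2 → deriv f x = 0 → x = c n) ∧
    (∀ n : ℕ, n % 2 = 1 → Fol n (c n)) ∧
    (∀ n : ℕ, n % 2 = 1 → (KnownFate a (c n) ↔ ∃ k, T^[k] n = 1)) ∧
    (∀ n : ℕ, n % 2 = 1 → ∀ y, AttractingPoint y → Attracts y (c n) →
      (y = 1 ∨ y = 2 ∨ y = a ∨ y = f a) ∨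
        ∃ m : ℕ, 3 ≤ m ∧ (∃ k, T^[k] n = m) ∧ T^[Function.minimalPeriod f y] m = m) := by
  obtain ⟨a, ha, hfa, _, hattr, _, _, hodd⟩ := Pool.Agent.Results.MP_a247fa_nt.OddCriticalPoints.result
  choose! c hc1 hc2 hc3 hc4 hc5 hc6 hc7 using hodd
  refine ⟨a, c, ⟨ha, hfa, hattr⟩, fun n hn => ⟨hc1 n hn, hc2 n hn, hc3 n hn, hc4 n hn⟩,
    fun n hn k => hc5 n hn k, fun n hn => (hc6 n hn).symm, fun n hn y hy hyc => ?_⟩
  rcases hc7 n hn y hy hyc with h | ⟨m, h1, h2, h3, -, -⟩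
  · exact Or.inl h
  · exact Or.inr ⟨m, h1, h2, h3⟩

/-- The set `S` of odd positive integers is closed under merging of the orbits of the `c n`. -/
def Closed (c : ℕ → ℝ) (S : Set ℕ) : Prop :=
  ∀ n m : ℕ, n % 2 = 1 → m % 2 = 1 → Merge (c n) (c m) → (n ∈ S ↔ m ∈ S)

/-- the integers which merge with a member of `S` -/
def Ext (S : Set ℕ) : Set ℤ := {x : ℤ | 0 < x ∧ ∃ m : ℕ, m % 2 = 1 ∧ m ∈ S ∧ Mer x (m : ℤ)}

theorem T_int_pos (x : ℤ) : 0 < x ↔ 0 < Pool.Agent.H723R2.LSW.T x := by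
  unfold Pool.Agent.H723R2.LSW.T
  split_ifs <;> omega

theorem ext_inv (S : Set ℕ) (x : ℤ) : x ∈ Ext S ↔ Pool.Agent.H723R2.LSW.T x ∈ Ext S := by
  have h := Pool.Agent.H723R2.LSW.mer_self_iter x 1
  rw [Function.iterate_one] at h
  constructor
  · rintro ⟨h1, m, h2, h3, h4⟩
    exact ⟨(T_int_pos x).1 h1, m, h2, h3, h.symm.trans h4⟩
  · rintro ⟨h1, m, h2, h3, h4⟩
    exact ⟨(T_int_pos x).2 h1, m, h2, h3, h.trans h4⟩

theorem mem_ext {c : ℕ → ℝ} (hc : ∀ n : ℕ, n % 2 = 1 → Fol n (c n)) {S : Set ℕ} (hS : Closed c S) {n : ℕ}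
    (hn : n % 2 = 1) : (n : ℤ) ∈ Ext S ↔ n ∈ S := by
  constructor
  · rintro ⟨_, m, h2, h3, h4⟩
    exact (hS n m hn h2 ((merge_iff (by omega) (by omega) (hc n hn) (hc m h2)).2 h4)).2 h3
  · intro h
    exact ⟨by omega, n, hn, h, Mer.refl _⟩

/-- the sets of the same fate -/
theorem closed_known {a : ℝ} {c : ℕ → ℝ} (hc : ∀ n : ℕ, n % 2 = 1 → Fol n (c n))
    (hk : ∀ n : ℕ, n % 2 = 1 → (KnownFate a (c n) ↔ ∃ k, T^[k] n = 1)) :
    Closed c {n | KnownFate a (c n)} := by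
  have key : ∀ n m : ℕ, n % 2 = 1 → m % 2 = 1 → Merge (c n) (c m) → KnownFate a (c n) →
      KnownFate a (c m) := by
    intro n m hn hm h h1
    rw [hk n hn] at h1
    rw [hk m hm]
    rw [merge_iff (by omega) (by omega) (hc n hn) (hc m hm)] at h
    obtain ⟨k, hk1⟩ := h1
    obtain ⟨i, j, hij⟩ := h
    rw [zT, zT] at hij
    have hij' : T^[i] n = T^[j] m := by exact_mod_cast hij
    -- the orbit of `1` returns to `1`
    have hone : ∀ l : ℕ, T^[2 * l] 1 = 1 := by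
      intro l
      rw [Function.iterate_mul]
      exact Function.iterate_fixed (by decide) l
    refine ⟨2 * i - i + k + j, ?_⟩
    rw [Function.iterate_add_apply, ← hij', ← Function.iterate_add_apply,
      show 2 * i - i + k + i = 2 * i + k by omega, Function.iterate_add_apply, hk1, hone]
  intro n m hn hm h
  have h' : Merge (c m) (c n) := by
    obtain ⟨i, j, hij⟩ := h
    exact ⟨j, i, fun k => (hij k).symm⟩
  exact ⟨key n m hn hm h, key m n hm hn h'⟩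

theorem merge_symm {x y : ℝ} (h : Merge x y) : Merge y x := by
  obtain ⟨i, j, hij⟩ := h
  exact ⟨j, i, fun k => (hij k).symm⟩

theorem merge_trans {x y z : ℝ} (h : Merge x y) (h' : Merge y z) : Merge x z := by
  obtain ⟨i, j, hij⟩ := h
  obtain ⟨i', j', hij'⟩ := h'
  refine ⟨i + i', j + j', fun k => ?_⟩
  have h1 := hij (k + i')
  have h2 := hij' (k + j)
  rw [show k + (i + i') = k + i' + i by ring, show k + (j + j') = k + j + j' by ring, h1,
    show k + i' + j = k + j + i' by ring, h2]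

theorem closed_merge (c : ℕ → ℝ) (m : ℕ) : Closed c {n | Merge (c n) (c m)} := by
  intro n n' _ _ h
  exact ⟨fun h1 => merge_trans (merge_symm h) h1, fun h1 => merge_trans h h1⟩

theorem closed_compl {c : ℕ → ℝ} {S : Set ℕ} (hS : Closed c S) : Closed c Sᶜ :=
  fun n m hn hm h => not_congr (hS n m hn hm h)

theorem tendsto_of_floor {g : ℕ → ℝ} {h : ℕ → ℝ} (e : ∀ k, ⌊g k⌋ = ⌊h k⌋) (hg : Tendsto g atTop atTop) :
    Tendsto h atTop atTop := by
  refine tendsto_atTop_mono (f := fun k => g k - 1) (fun k => ?_) (tendsto_atTop_add_const_right _ _ hg)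
  have h1 := Int.lt_floor_add_one (g k)
  have h2 := Int.floor_le (h k)
  rw [← e k] at h2
  linarith

theorem closed_infinity (c : ℕ → ℝ) : Closed c {n | Tendsto (fun k : ℕ => f^[k] (c n)) atTop atTop} := by
  have key : ∀ x y : ℝ, Merge x y → Tendsto (fun k : ℕ => f^[k] x) atTop atTop →
      Tendsto (fun k : ℕ => f^[k] y) atTop atTop := by
    rintro x y ⟨i, j, hij⟩ h
    have h1 : Tendsto (fun k : ℕ => f^[k + i] x) atTop atTop := (tendsto_add_atTop_iff_nat i).2 h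
    have h2 := tendsto_of_floor hij h1
    exact (tendsto_add_atTop_iff_nat j).1 h2
  intro n m _ _ h
  exact ⟨key _ _ h, key _ _ (merge_symm h)⟩

end Pool.Agent.Q163.WD.Crit
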