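import Pool.Agent.H723R2.LSWDens

set_option autoImplicit false

/-!
Sets of integers invariant under the `3x+1` map: two forms of invariance, positivity of the densities.
-/

namespace Pool.Agent.Q163.WD.Pos

open Filter Topology
open Pool.Agent.H499R2.ND (Ci structure_full)

/-- the `3x+1` map -/
def T (x : ℤ) : ℤ := if x % 2 = 0 then x / 2 else (3 * x + 1) / 2

/-- the Collatz map -/
def C (x : ℤ) : ℤ := if x % 2 = 0 then x / 2 else 3 * x + 1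

theorem inv_C {S : Set ℤ} (hS : ∀ x : ℤ, x ∈ S ↔ T x ∈ S) (x : ℤ) : x ∈ S ↔ C x ∈ S := by
  unfold C
  by_cases hx : x % 2 = 0
  · rw [if_pos hx]
    have h1 := hS x
    unfold T at h1
    rwa [if_pos hx] at h1
  · rw [if_neg hx]
    have h1 := hS x
    have h2 := hS (3 * x + 1)
    unfold T at h1 h2
    rw [if_neg hx] at h1
    rw [if_pos (by omega)] at h2
    rw [h1, h2]

/-- a non-empty invariant set has a positive density -/
theorem dens_pos {s : ℤ} (hs : s = 1 ∨ s = -1) {S : Set ℤ} (hS : ∀ x : ℤ, x ∈ S ↔ T x ∈ S)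
    (hne : ∃ x ∈ S, 0 < s * x) : ∃ δ : ℝ, 0 < δ ∧
      Tendsto (fun N : ℕ => ({n : ℤ | 0 < s * n ∧ s * n ≤ N ∧ n ∈ S}.ncard : ℝ) / N) atTop (𝓝 δ) := by
  obtain ⟨δ, h1, h2, -⟩ := structure_full hs
  have hC : ∀ x : ℤ, x ∈ S ↔ Ci x ∈ S := inv_C hS
  obtain ⟨a, ha, ha0⟩ := hne
  refine ⟨_, ?_, h2 S hC⟩
  obtain ⟨h3, h4⟩ := h1 a ha0
  refine lt_of_lt_of_le h3 (le_of_tendsto_of_tendsto' h4 (h2 S hC) fun N => ?_)
  have hi : ∀ (k : ℕ) (x : ℤ), x ∈ S ↔ Ci^[k] x ∈ S := by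
    intro k
    induction k with
    | zero => intro x; exact Iff.rfl
    | succ k ih => intro x; rw [hC x, ih, Function.iterate_succ_apply]
  have hfin : {n : ℤ | 0 < s * n ∧ s * n ≤ N ∧ n ∈ S}.Finite := by
    apply Set.Finite.subset (Set.finite_Icc (-(N : ℤ)) N)
    rintro n ⟨g1, g2, -⟩
    rw [Set.mem_Icc]
    rcases hs with rfl | rfl <;> omega
  have hsub : {n : ℤ | 0 < s * n ∧ s * n ≤ N ∧ ∃ i j : ℕ, Ci^[i] n = Ci^[j] a} ⊆
      {n : ℤ | 0 < s * n ∧ s * n ≤ N ∧ n ∈ S} := by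
    rintro n ⟨g1, g2, i, j, hij⟩
    refine ⟨g1, g2, ?_⟩
    rw [hi i n, hij, ← hi j a]
    exact ha
  have h5 : ({n : ℤ | 0 < s * n ∧ s * n ≤ N ∧ ∃ i j : ℕ, Ci^[i] n = Ci^[j] a}.ncard : ℝ) ≤
      {n : ℤ | 0 < s * n ∧ s * n ≤ N ∧ n ∈ S}.ncard := by
    exact_mod_cast Set.ncard_le_ncard hsub hfin
  exact div_le_div_of_nonneg_right h5 (Nat.cast_nonneg _)

end Pool.Agent.Q163.WD.Pos
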