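import Mathlib
import Pool.Agent.Q163.WD.Pos

set_option autoImplicit false

/-!
The Syracuse map on the negative odd integers, and the sets of integers invariant under the `3x+1` map.
-/

namespace Pool.Agent.Q163.WD.Neg

open Filter Topology
open Pool.Agent.Q163.WD.Pos (T)

/-- The Syracuse map. -/
def Syr (N : ℤ) : ℤ := (3 * N + 1) / 2 ^ padicValInt 2 (3 * N + 1)

/-- the odd part -/
def OP (x : ℤ) : ℤ := x / 2 ^ padicValInt 2 x

theorem Syr_eq (N : ℤ) : Syr N = OP (3 * N + 1) := rfl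

theorem OP_odd {x : ℤ} (h : x % 2 = 1) : OP x = x := by
  unfold OP
  rw [padicValInt.eq_zero_of_not_dvd (by omega), pow_zero, Int.ediv_one]

theorem OP_two {x : ℤ} (h : x ≠ 0) : OP (2 * x) = OP x := by
  unfold OP
  have h2 : padicValInt 2 (2 * x) = padicValInt 2 x + 1 := by
    haveI : Fact (Nat.Prime 2) := ⟨Nat.prime_two⟩
    rw [padicValInt.mul (by norm_num) h]
    have : padicValInt 2 (2 : ℤ) = 1 := by
      have h3 := padicValInt.self (p := 2) (by norm_num)
      exact_mod_cast h3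
    rw [this, add_comm]
  rw [h2, pow_succ, mul_comm (2 ^ padicValInt 2 x : ℤ) 2, Int.mul_ediv_mul_of_pos _ _ (by norm_num)]

/-- a set invariant under `Syr`, among the negative odd integers -/
def SInv (S : Set ℤ) : Prop := ∀ N : ℤ, N < 0 → Odd N → (N ∈ S ↔ Syr N ∈ S)

/-- the negative integers whose odd parts are in `S` -/
def Lift (S : Set ℤ) : Set ℤ := {x : ℤ | x < 0 ∧ OP x ∈ S}

theorem lift_odd (S : Set ℤ) {x : ℤ} (h0 : x < 0) (h : x % 2 = 1) : x ∈ Lift S ↔ x ∈ S := by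
  unfold Lift
  rw [Set.mem_ofPred_eq, OP_odd h]
  exact ⟨fun h => h.2, fun h => ⟨h0, h⟩⟩

theorem lift_odd' (S : Set ℤ) {n : ℕ} (h : n % 2 = 1) : (-1) * (n : ℤ) ∈ Lift S ↔ -(n : ℤ) ∈ S := by
  rw [neg_one_mul]
  exact lift_odd S (by omega) (by omega)

theorem T_neg {x : ℤ} : x < 0 ↔ T x < 0 := by
  unfold T
  split_ifs <;> omega

theorem lift_inv {S : Set ℤ} (hS : SInv S) (x : ℤ) : x ∈ Lift S ↔ T x ∈ Lift S := by
  by_cases h0 : x < 0
  · have h1 := T_neg.1 h0
    have key : OP x ∈ S ↔ OP (T x) ∈ S := by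
      by_cases hx : x % 2 = 0
      · have e : x = 2 * T x := by unfold T; rw [if_pos hx]; omega
        have : OP x = OP (T x) := by
          conv_lhs => rw [e]
          exact OP_two (by omega)
        rw [this]
      · have hx1 : x % 2 = 1 := by omega
        have e : 3 * x + 1 = 2 * T x := by unfold T; rw [if_neg hx]; omega
        rw [OP_odd hx1, hS x h0 (Int.odd_iff.2 hx1), Syr_eq, e, OP_two (by omega)]
    unfold Lift
    simp only [Set.mem_ofPred_eq]
    exact ⟨fun h => ⟨h1, key.1 h.2⟩, fun h => ⟨h0, key.2 h.2⟩⟩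
  · have h1 : ¬ T x < 0 := fun h => h0 (T_neg.2 h)
    exact ⟨fun h => absurd h.1 h0, fun h => absurd h.1 h1⟩

theorem sinv_compl {S : Set ℤ} (hS : SInv S) : SInv Sᶜ := fun N h1 h2 => not_congr (hS N h1 h2)

theorem Syr_odd {N : ℤ} (h0 : N < 0) : Odd (Syr N) := by
  rw [Syr_eq]
  unfold OP
  haveI : Fact (Nat.Prime 2) := ⟨Nat.prime_two⟩
  have hne : 3 * N + 1 ≠ 0 := by omega
  rw [← Int.not_even_iff_odd, even_iff_two_dvd]
  intro h
  have hd : (2 : ℤ) ^ padicValInt 2 (3 * N + 1) ∣ 3 * N + 1 := by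
    have := padicValInt_dvd (p := 2) (3 * N + 1)
    exact_mod_cast this
  have h2 : (2 : ℤ) ^ (padicValInt 2 (3 * N + 1) + 1) ∣ 3 * N + 1 := by
    obtain ⟨y, hy⟩ := h
    refine ⟨y, ?_⟩
    rw [pow_succ, mul_assoc, ← hy, Int.mul_ediv_cancel' hd]
  have h3 := (padicValInt_dvd_iff (p := 2) (padicValInt 2 (3 * N + 1) + 1) (3 * N + 1)).1
    (by exact_mod_cast h2)
  rcases h3 with h3 | h3
  · exact hne h3
  · omega

theorem Syr_neg {N : ℤ} (h0 : N < 0) : Syr N < 0 := by
  unfold Syr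
  exact Int.ediv_neg_of_neg_of_pos (by omega) (by positivity)

theorem iter_neg {N : ℤ} (h0 : N < 0) (hN : Odd N) (k : ℕ) : Syr^[k] N < 0 ∧ Odd (Syr^[k] N) := by
  induction k with
  | zero => exact ⟨h0, hN⟩
  | succ k ih =>
    rw [Function.iterate_succ_apply']
    exact ⟨Syr_neg ih.1, Syr_odd ih.1⟩

/-- the set of the `N` whose orbit meets `Z`, where `Z` is closed under `Syr` -/
theorem sinv_meets {Z : Set ℤ} (hZ : ∀ x ∈ Z, Syr x ∈ Z) : SInv {N | ∃ k : ℕ, Syr^[k] N ∈ Z} := by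
  intro N _ _
  constructor
  · rintro ⟨k, hk⟩
    refine ⟨k, ?_⟩
    rw [← Function.iterate_succ_apply, Function.iterate_succ_apply']
    exact hZ _ hk
  · rintro ⟨k, hk⟩
    exact ⟨k + 1, by rw [Function.iterate_succ_apply]; exact hk⟩

/-- the union of the three known cycles -/
def Known : Finset ℤ := {-1, -5, -7, -17, -25, -37, -55, -41, -61, -91}

theorem Syr_val (N M : ℤ) (v : ℕ) (h : 3 * N + 1 = 2 ^ v * M) (hM : M % 2 = 1) : Syr N = M := by
  rw [Syr_eq, h]
  clear h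
  induction v with
  | zero => rw [pow_zero, one_mul, OP_odd hM]
  | succ v ih =>
    rw [pow_succ, mul_comm ((2 : ℤ) ^ v) 2, mul_assoc, OP_two, ih]
    have h1 : (2 : ℤ) ^ v ≠ 0 := by positivity
    have h2 : M ≠ 0 := by omega
    exact mul_ne_zero h1 h2

theorem known_closed : ∀ x ∈ (Known : Set ℤ), Syr x ∈ (Known : Set ℤ) := by
  intro x hx
  have h : x ∈ Known := hx
  show Syr x ∈ Known
  unfold Known at h ⊢
  simp only [Finset.mem_insert, Finset.mem_singleton] at h
  rcases h with rfl | rfl | rfl | rfl | rfl | rfl | rfl | rfl | rfl | rfl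
  · rw [Syr_val (-1) (-1) 1 (by norm_num) (by norm_num)]; decide
  · rw [Syr_val (-5) (-7) 1 (by norm_num) (by norm_num)]; decide
  · rw [Syr_val (-7) (-5) 2 (by norm_num) (by norm_num)]; decide
  · rw [Syr_val (-17) (-25) 1 (by norm_num) (by norm_num)]; decide
  · rw [Syr_val (-25) (-37) 1 (by norm_num) (by norm_num)]; decide
  · rw [Syr_val (-37) (-55) 1 (by norm_num) (by norm_num)]; decide
  · rw [Syr_val (-55) (-41) 2 (by norm_num) (by norm_num)]; decide
  · rw [Syr_val (-41) (-61) 1 (by norm_num) (by norm_num)]; decide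
  · rw [Syr_val (-61) (-91) 1 (by norm_num) (by norm_num)]; decide
  · rw [Syr_val (-91) (-17) 4 (by norm_num) (by norm_num)]; decide

theorem sinv_known : SInv {N | ∃ k : ℕ, Syr^[k] N ∈ Known} := sinv_meets known_closed

end Pool.Agent.Q163.WD.Neg
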