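import Pool.Agent.Results.MP_d02c56_nt.AdditiveFunctions
import Pool.Agent.Results.MP_d02c56_nt.LargePrimeFactors

set_option autoImplicit false

/-!
The sets invariant under the Collatz map, in arithmetical test sets of odd integers: boxes of additive
functions, and conditions on the largest prime factors.
-/

namespace Pool.Agent.Q163.WD.OddAF

open Filter Topology Finset
open Pool.Agent.Results.MP_d02c56_nt.AdditiveFunctions (Invariant HasDensity e Multiplicative Additive Box)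
open Pool.Agent.Results.MP_d02c56_nt.LargePrimeFactors (top)

/-- The number of the odd `n ≤ N` in `E` with `s n ∈ S`. -/
noncomputable def oddCount (s : ℤ) (N : ℕ) (S : Set ℤ) (E : Set ℕ) : ℕ :=
  {n : ℕ | n % 2 = 1 ∧ n ≤ N ∧ n ∈ E ∧ s * (n : ℤ) ∈ S}.ncard

/-- `1` at the odd integers -/
noncomputable def od (n : ℕ) : ℂ := if n % 2 = 1 then 1 else 0

theorem od_mul (m n : ℕ) : od (m * n) = od m * od n := by
  unfold od
  rcases Nat.mod_two_eq_zero_or_one m with h | h <;> rcases Nat.mod_two_eq_zero_or_one n with h' | h' <;>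
    simp [Nat.mul_mod, h, h']

theorem mult_od {g : ℕ → ℂ} (hg : Multiplicative g) : Multiplicative (fun n => g n * od n) := by
  refine ⟨fun n => ?_, fun m n h => ?_⟩
  · show ‖g n * od n‖ ≤ 1
    unfold od
    split_ifs
    · rw [mul_one]; exact hg.1 n
    · rw [mul_zero, norm_zero]; exact zero_le_one
  · show g (m * n) * od (m * n) = g m * od m * (g n * od n)
    rw [hg.2 m n h, od_mul]
    ring

/-- the centred indicator -/
noncomputable def ci (s : ℤ) (S : Set ℤ) (δ : ℝ) (n : ℕ) : ℂ :=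
  ((S.indicator (fun _ => (1 : ℝ)) (s * (n : ℤ)) - δ : ℝ) : ℂ)

theorem one_mult : Multiplicative (fun _ => (1 : ℂ)) := ⟨fun n => by simp, fun m n _ => by simp⟩

theorem e_zero (n : ℕ) : e (0 * (n : ℝ)) = 1 := by
  unfold Pool.Agent.Results.MP_d02c56_nt.AdditiveFunctions.e
  simp

open scoped Classical in
/-- the number of the elements from the sum -/
theorem count_of_sum {s : ℤ} {S : Set ℤ} {δ : ℝ} {N : ℕ} {E : Set ℕ} {η : ℝ}
    (h : ‖∑ n ∈ (Icc 1 N).filter (fun n => n % 2 = 1), (if n ∈ E then ci s S δ n else 0 : ℂ)‖ ≤ η) :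
    |(oddCount s N S E : ℝ) - δ * oddCount s N Set.univ E| ≤ η := by
  classical
  have key : (∑ n ∈ (Icc 1 N).filter (fun n => n % 2 = 1), (if n ∈ E then ci s S δ n else 0 : ℂ)) =
      (((oddCount s N S E : ℝ) - δ * oddCount s N Set.univ E : ℝ) : ℂ) := by
    have e1 : ∀ U : Set ℤ, (oddCount s N U E : ℝ) = ∑ n ∈ (Icc 1 N).filter (fun n => n % 2 = 1),
        (if n ∈ E then U.indicator (fun _ => (1 : ℝ)) (s * (n : ℤ)) else 0) := by
      intro U
      unfold oddCount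
      have e2 : {n : ℕ | n % 2 = 1 ∧ n ≤ N ∧ n ∈ E ∧ s * (n : ℤ) ∈ U} =
          (((Icc 1 N).filter (fun n => n % 2 = 1)).filter (fun n => n ∈ E ∧ s * (n : ℤ) ∈ U) : Finset ℕ) := by
        ext n
        simp only [Set.mem_ofPred_eq, coe_filter, mem_filter, mem_Icc]
        constructor
        · rintro ⟨g1, g2, g3⟩
          exact ⟨⟨⟨by omega, g2⟩, g1⟩, g3⟩
        · rintro ⟨⟨⟨-, g2⟩, g1⟩, g3⟩
          exact ⟨g1, g2, g3⟩
      rw [e2, Set.ncard_coe_finset, card_filter]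
      push_cast
      apply sum_congr rfl
      intro n _
      by_cases h1 : n ∈ E
      · rw [if_pos h1]
        by_cases h2 : s * (n : ℤ) ∈ U
        · rw [if_pos ⟨h1, h2⟩, Set.indicator_of_mem h2]
        · rw [if_neg (fun h => h2 h.2), Set.indicator_of_notMem h2]
      · rw [if_neg (fun h => h1 h.1), if_neg h1]
    rw [e1 S, e1 Set.univ, mul_sum, ← sum_sub_distrib]
    push_cast
    apply sum_congr rfl
    intro n _
    unfold ci
    by_cases h1 : n ∈ E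
    · rw [if_pos h1, if_pos h1, if_pos h1]
      simp
    · rw [if_neg h1, if_neg h1, if_neg h1]
      simp
  rw [key, Complex.norm_real] at h
  exact h

open scoped Classical in
/-- **boxes of additive functions** -/
theorem odd_box {s : ℤ} (hs : s = 1 ∨ s = -1) (d : ℕ) {ε : ℝ} (hε : 0 < ε) : ∃ N₀ : ℕ, ∀ S : Set ℤ,
    Invariant S → ∃ δ : ℝ, HasDensity s S δ ∧ ∀ N : ℕ, N₀ ≤ N → ∀ f : Fin d → ℕ → ℝ,
      (∀ i, Additive (f i)) → ∀ I : Fin d → Set ℝ, (∀ i, (I i).OrdConnected) →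
      (∀ g : ℕ → ℂ, Multiplicative g → ∀ α : ℝ,
        ‖∑ n ∈ (Icc 1 N).filter (fun n => n % 2 = 1), if n ∈ Box f I then
          ci s S δ n * g n * e (α * n) else 0‖ ≤ ε * N) ∧
      |(oddCount s N S (Box f I) : ℝ) - δ * oddCount s N Set.univ (Box f I)| ≤ ε * N := by
  obtain ⟨h1, -, -⟩ := Pool.Agent.Results.MP_d02c56_nt.AdditiveFunctions.result s hs
  obtain ⟨N₀, h⟩ := h1 d ε hε
  refine ⟨N₀, fun S hS => ?_⟩
  obtain ⟨δ, hδ, h2⟩ := h S hS
  refine ⟨δ, hδ, fun N hN f hf I hI => ?_⟩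
  have h3 : ∀ g : ℕ → ℂ, Multiplicative g → ∀ α : ℝ,
        ‖∑ n ∈ (Icc 1 N).filter (fun n => n % 2 = 1), if n ∈ Box f I then
          ci s S δ n * g n * e (α * n) else 0‖ ≤ ε * N := by
    intro g hg α
    have h4 := (h2 N hN f hf I hI).1 _ (mult_od hg) α
    refine le_trans (le_of_eq ?_) h4
    congr 1
    rw [sum_filter]
    apply sum_congr rfl
    intro n _
    unfold od ci
    by_cases g1 : n % 2 = 1
    · rw [if_pos g1, if_pos g1, mul_one]
    · rw [if_neg g1, if_neg g1, mul_zero, mul_zero, zero_mul, ite_self]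
  refine ⟨h3, count_of_sum ?_⟩
  have h5 := h3 _ one_mult 0
  simp only [e_zero, mul_one] at h5
  exact h5

/-- **the largest prime factors** -/
theorem odd_top {s : ℤ} (hs : s = 1 ∨ s = -1) (k : ℕ) {ε : ℝ} (hε : 0 < ε) : ∃ N₀ : ℕ, ∀ S : Set ℤ,
    Invariant S → ∃ δ : ℝ, HasDensity s S δ ∧ ∀ N : ℕ, N₀ ≤ N →
      (∀ g : ℕ → ℂ, Multiplicative g → ∀ α : ℝ, ∀ Φ : List ℕ → ℂ, (∀ l, ‖Φ l‖ ≤ 1) →
        ‖∑ n ∈ (Icc 1 N).filter (fun n => n % 2 = 1),
          ci s S δ n * g n * e (α * n) * Φ (top k n)‖ ≤ ε * N) ∧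
      ∀ A : Set (List ℕ), |(oddCount s N S {n | top k n ∈ A} : ℝ) -
        δ * oddCount s N Set.univ {n | top k n ∈ A}| ≤ ε * N := by
  classical
  obtain ⟨-, h1, -⟩ := Pool.Agent.Results.MP_d02c56_nt.LargePrimeFactors.result s hs
  obtain ⟨N₀, h⟩ := h1 k ε hε
  refine ⟨N₀, fun S hS => ?_⟩
  obtain ⟨δ, hδ, h2⟩ := h S hS
  refine ⟨δ, hδ, fun N hN => ?_⟩
  have h3 : ∀ g : ℕ → ℂ, Multiplicative g → ∀ α : ℝ, ∀ Φ : List ℕ → ℂ, (∀ l, ‖Φ l‖ ≤ 1) →
        ‖∑ n ∈ (Icc 1 N).filter (fun n => n % 2 = 1),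
          ci s S δ n * g n * e (α * n) * Φ (top k n)‖ ≤ ε * N := by
    intro g hg α Φ hΦ
    have h4 := (h2 N hN).1 _ (mult_od hg) α Φ hΦ
    refine le_trans (le_of_eq ?_) h4
    congr 1
    rw [sum_filter]
    apply sum_congr rfl
    intro n _
    unfold od ci
    by_cases g1 : n % 2 = 1
    · rw [if_pos g1, if_pos g1, mul_one]
      rfl
    · rw [if_neg g1, if_neg g1, mul_zero, mul_zero, zero_mul, zero_mul]
  refine ⟨h3, fun A => count_of_sum ?_⟩
  have h5 := h3 _ one_mult 0 (fun l => if l ∈ A then 1 else 0) (fun l => by split_ifs <;> simp)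
  refine le_trans (le_of_eq ?_) h5
  congr 1
  apply sum_congr rfl
  intro n _
  rw [e_zero, mul_one, mul_one]
  by_cases g1 : top k n ∈ A
  · rw [if_pos g1, if_pos (show n ∈ {n | top k n ∈ A} from g1), mul_one]
  · rw [if_neg g1, if_neg (show n ∉ {n | top k n ∈ A} from g1), mul_zero]

/-- a criterion -/
theorem count_lower {s : ℤ} {S : Set ℤ} {δ : ℝ} {E : ℕ → Set ℕ} {κ : ℝ} {ψ : ℕ → ℝ} (hδ0 : 0 < δ)
    (hκ : 0 < κ) (hψ : Tendsto ψ atTop (𝓝 0))
    (h : ∀ ε : ℝ, 0 < ε → ∃ N₀ : ℕ, ∀ N : ℕ, N₀ ≤ N →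
      |(oddCount s N S (E N) : ℝ) - δ * oddCount s N Set.univ (E N)| ≤ ε * N) :
    ¬ ∃ᶠ N : ℕ in atTop, κ * N ≤ oddCount s N Set.univ (E N) ∧
      (oddCount s N S (E N) : ℝ) ≤ ψ N * N := by
  intro hcon
  obtain ⟨N₀, hN₀⟩ := h (δ * κ / 2) (by positivity)
  have hev : ∀ᶠ N : ℕ in atTop, ψ N < δ * κ / 2 ∧ N₀ ≤ N ∧ 1 ≤ N := by
    filter_upwards [hψ.eventually (gt_mem_nhds (show 0 < δ * κ / 2 by positivity)),
      eventually_ge_atTop N₀, eventually_ge_atTop 1] with N a1 a2 a3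
    exact ⟨a1, a2, a3⟩
  obtain ⟨N, ⟨g1, g2⟩, g3, g4, g5⟩ := (hcon.and_eventually hev).exists
  have hN0 : (0 : ℝ) < N := by exact_mod_cast g5
  have h1 := (abs_le.1 (hN₀ N g4)).1
  have h2 : δ * (κ * N) ≤ δ * oddCount s N Set.univ (E N) := mul_le_mul_of_nonneg_left g1 hδ0.le
  have h3 : ψ N * N < δ * κ / 2 * N := mul_lt_mul_of_pos_right g3 hN0
  nlinarith

end Pool.Agent.Q163.WD.OddAF
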