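import Pool.Agent.Results.MP_edb5be_nt.AlmostAllClasses

set_option autoImplicit false

/-!
The theorem of Barban-Davenport-Halberstam type for the sets invariant under the `3x+1` map, restricted
to the odd integers.
-/

namespace Pool.Agent.Q163.WD.OddBdh

open Finset Filter Topology
open Pool.Agent.Results.MP_edb5be_nt.AlmostAllClasses (Invariant missed_small Missed)

/-- The number of the odd `n ≤ N`, `n ≡ a` modulo `2 q`, with `s n ∈ S` (`a` is odd). -/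
noncomputable def oddCount (s : ℤ) (S : Set ℤ) (N q a : ℕ) : ℕ :=
  {n : ℕ | n % 2 = 1 ∧ n ≤ N ∧ n ≡ a [MOD 2 * q] ∧ s * (n : ℤ) ∈ S}.ncard

/-- The number of the odd `n ≤ N` with `s n ∈ S`. -/
noncomputable def oddAll (s : ℤ) (S : Set ℤ) (N : ℕ) : ℕ :=
  {n : ℕ | n % 2 = 1 ∧ n ≤ N ∧ s * (n : ℤ) ∈ S}.ncard

/-- The pairs `(q, a)`, `Q ≤ q < 2 Q`, `a < 2 q` odd, such that no (odd) `n ≤ X` with `n ≡ a` modulo
`2 q` satisfies `s n ∈ S`. -/
def oddMissed (s : ℤ) (S : Set ℤ) (X Q : ℕ) : Set (ℕ × ℕ) :=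
  {p : ℕ × ℕ | Q ≤ p.1 ∧ p.1 < 2 * Q ∧ p.2 % 2 = 1 ∧ p.2 < 2 * p.1 ∧
    ∀ n : ℕ, n ≤ X → n ≡ p.2 [MOD 2 * p.1] → s * (n : ℤ) ∉ S}

noncomputable abbrev cnt := Pool.Agent.Results.MP_edb5be_nt.AlmostAllClasses.count

theorem cnt_eq {s : ℤ} (hs : s = 1 ∨ s = -1) (S : Set ℤ) (N q : ℕ) (a : ℤ) :
    cnt S s N q a = {n : ℕ | 1 ≤ n ∧ n ≤ N ∧ (n : ℤ) ≡ a [ZMOD q] ∧ s * (n : ℤ) ∈ S}.ncard := by
  have hss : ∀ x : ℤ, s * (s * x) = x := by intro x; rcases hs with rfl | rfl <;> ring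
  have h := Pool.Agent.H499R2.CO.side_ncard hs {x : ℤ | s * x ≡ a [ZMOD q] ∧ x ∈ S} N
  unfold cnt Pool.Agent.Results.MP_edb5be_nt.AlmostAllClasses.count
  refine h.trans ?_
  congr 1
  ext n
  simp only [Set.mem_ofPred_eq, hss]

theorem mod_odd {n a q : ℕ} (h : n ≡ a [MOD 2 * q]) : n % 2 = a % 2 := by
  have := h.of_mul_right q
  exact this

/-- an odd class modulo `2 q` -/
theorem cnt_odd {s : ℤ} (hs : s = 1 ∨ s = -1) (S : Set ℤ) (N q a : ℕ) (ha : a % 2 = 1) :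
    cnt S s N (2 * q) (a : ℤ) = oddCount s S N q a := by
  rw [cnt_eq hs]
  unfold oddCount
  congr 1
  ext n
  simp only [Set.mem_ofPred_eq]
  have e : ((n : ℤ) ≡ (a : ℤ) [ZMOD ((2 * q : ℕ) : ℤ)]) ↔ n ≡ a [MOD 2 * q] := Int.natCast_modEq_iff
  rw [e]
  constructor
  · rintro ⟨h1, h2, h3, h4⟩
    exact ⟨(mod_odd h3).trans ha, h2, h3, h4⟩
  · rintro ⟨h1, h2, h3, h4⟩
    exact ⟨by omega, h2, h3, h4⟩

theorem cnt_two {s : ℤ} (hs : s = 1 ∨ s = -1) (S : Set ℤ) (N : ℕ) :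
    cnt S s N 2 (1 : ℕ) = oddAll s S N := by
  have h := cnt_odd hs S N 1 1 rfl
  rw [mul_one] at h
  rw [h]
  unfold oddCount oddAll
  congr 1
  ext n
  simp only [Set.mem_ofPred_eq]
  constructor
  · rintro ⟨h1, h2, _, h4⟩; exact ⟨h1, h2, h4⟩
  · rintro ⟨h1, h2, h4⟩
    exact ⟨h1, h2, h1, h4⟩

/-- **the variance over the odd classes** -/
theorem bdh_odd {ε : ℝ} (hε : 0 < ε) : ∃ N₀ : ℕ, ∀ S : Set ℤ, Invariant S → ∀ s : ℤ, s = 1 ∨ s = -1 →
    ∀ N : ℕ, N₀ ≤ N → ∀ Q : ℕ, 1 ≤ Q →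
      ∑ q ∈ Ico Q (2 * Q), ∑ a ∈ (range (2 * q)).filter (fun a => a % 2 = 1),
        ((oddCount s S N q a : ℝ) - oddAll s S N / q) ^ 2 ≤ ε * N ^ 2 + 1152 * Q * N := by
  obtain ⟨h1, -, -⟩ := Pool.Agent.Results.MP_edb5be_nt.AlmostAllClasses.result
  obtain ⟨N₁, hN₁⟩ := h1 (ε / 8) (by positivity)
  obtain ⟨N₂, hN₂⟩ := exists_nat_ge (576 / (ε / 8))
  refine ⟨max (max N₁ N₂) 1, fun S hS s hs N hN Q hQ => ?_⟩
  have a1 : N₁ ≤ N := ((le_max_left _ _).trans (le_max_left _ _)).trans hN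
  have a2 : N₂ ≤ N := ((le_max_right _ _).trans (le_max_left _ _)).trans hN
  have a3 : 1 ≤ N := (le_max_right _ _).trans hN
  have hN0 : (0 : ℝ) < N := by exact_mod_cast a3
  have hQ0 : (0 : ℝ) < Q := by exact_mod_cast hQ
  set A : ℝ := (cnt S s N 1 0 : ℝ) with hA
  set O : ℝ := (oddAll s S N : ℝ) with hO
  -- the odd members are half of all
  have hhalf : (O - A / 2) ^ 2 ≤ ε / 4 * N ^ 2 := by
    have h2 := hN₁ S hS s hs N a1 2 (by norm_num)
    have h3 : (O - A / 2) ^ 2 ≤ ∑ q ∈ Ico 2 (2 * 2), ∑ a ∈ range q,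
        ((cnt S s N q (a : ℤ) : ℝ) - A / q) ^ 2 := by
      have h4 : ((cnt S s N 2 ((1 : ℕ) : ℤ) : ℝ) - A / ((2 : ℕ) : ℝ)) ^ 2 ≤
          ∑ a ∈ range 2, ((cnt S s N 2 (a : ℤ) : ℝ) - A / ((2 : ℕ) : ℝ)) ^ 2 :=
        single_le_sum (f := fun a : ℕ => ((cnt S s N 2 (a : ℤ) : ℝ) - A / ((2 : ℕ) : ℝ)) ^ 2)
          (fun a _ => sq_nonneg _) (mem_range.2 (by norm_num))
      have h5 : ∑ a ∈ range 2, ((cnt S s N 2 (a : ℤ) : ℝ) - A / ((2 : ℕ) : ℝ)) ^ 2 ≤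
          ∑ q ∈ Ico 2 (2 * 2), ∑ a ∈ range q, ((cnt S s N q (a : ℤ) : ℝ) - A / q) ^ 2 :=
        single_le_sum (f := fun q : ℕ => ∑ a ∈ range q, ((cnt S s N q (a : ℤ) : ℝ) - A / q) ^ 2)
          (fun q _ => sum_nonneg fun a _ => sq_nonneg _) (mem_Ico.2 (by norm_num))
      rw [cnt_two hs] at h4
      push_cast at h4 h5 ⊢
      linarith
    have h6 : 576 ≤ ε / 8 * N := by
      have : 576 / (ε / 8) ≤ (N : ℝ) := hN₂.trans (by exact_mod_cast a2)
      rw [div_le_iff₀ (by positivity)] at this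
      linarith
    have h7 : (288 : ℝ) * 2 * N ≤ ε / 8 * N ^ 2 := by nlinarith
    push_cast at h2
    have h8 := h3.trans h2
    nlinarith
  -- the variance at the moduli `2 q`
  have h2 := hN₁ S hS s hs N a1 (2 * Q) (by omega)
  have h3 : ∑ q ∈ Ico Q (2 * Q), ∑ a ∈ (range (2 * q)).filter (fun a => a % 2 = 1),
        ((oddCount s S N q a : ℝ) - A / (2 * q)) ^ 2 ≤ ε / 8 * N ^ 2 + 576 * Q * N := by
    have h4 : ∑ q ∈ Ico Q (2 * Q), ∑ a ∈ (range (2 * q)).filter (fun a => a % 2 = 1),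
        ((oddCount s S N q a : ℝ) - A / (2 * q)) ^ 2 ≤
        ∑ q ∈ (Ico Q (2 * Q)).image (fun q => 2 * q), ∑ a ∈ range q,
          ((cnt S s N q (a : ℤ) : ℝ) - A / q) ^ 2 := by
      rw [sum_image (fun x _ y _ h => by simpa using h)]
      apply sum_le_sum
      intro q _
      calc ∑ a ∈ (range (2 * q)).filter (fun a => a % 2 = 1), ((oddCount s S N q a : ℝ) - A / (2 * q)) ^ 2
          = ∑ a ∈ (range (2 * q)).filter (fun a => a % 2 = 1),
            ((cnt S s N (2 * q) (a : ℤ) : ℝ) - A / ((2 * q : ℕ) : ℝ)) ^ 2 := by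
            apply sum_congr rfl
            intro a ha
            rw [mem_filter] at ha
            rw [cnt_odd hs S N q a ha.2]
            push_cast
            rfl
        _ ≤ _ := sum_le_sum_of_subset_of_nonneg (filter_subset _ _) fun _ _ _ => sq_nonneg _
    have h5 : ∑ q ∈ (Ico Q (2 * Q)).image (fun q => 2 * q), ∑ a ∈ range q,
          ((cnt S s N q (a : ℤ) : ℝ) - A / q) ^ 2 ≤
        ∑ q ∈ Ico (2 * Q) (2 * (2 * Q)), ∑ a ∈ range q, ((cnt S s N q (a : ℤ) : ℝ) - A / q) ^ 2 := by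
      apply sum_le_sum_of_subset_of_nonneg
      · intro q hq
        rw [mem_image] at hq
        obtain ⟨r, hr, rfl⟩ := hq
        rw [mem_Ico] at hr ⊢
        omega
      · intro _ _ _
        exact sum_nonneg fun a _ => sq_nonneg _
    refine (h4.trans h5).trans (h2.trans (le_of_eq ?_))
    push_cast
    ring
  -- change of the centre
  have hcard : ∀ q : ℕ, #((range (2 * q)).filter (fun a => a % 2 = 1)) = q := by
    intro q
    induction q with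
    | zero => simp
    | succ q ih =>
      rw [show 2 * (q + 1) = 2 * q + 1 + 1 by ring, range_add_one, range_add_one, filter_insert,
        filter_insert, if_pos (by omega), if_neg (by omega), card_insert_of_notMem, ih]
      simp
  have h6 : ∑ q ∈ Ico Q (2 * Q), ∑ a ∈ (range (2 * q)).filter (fun a => a % 2 = 1),
      (A / (2 * q) - O / q) ^ 2 ≤ ε / 4 * N ^ 2 := by
    have h7 : ∀ q ∈ Ico Q (2 * Q), ∑ a ∈ (range (2 * q)).filter (fun a => a % 2 = 1),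
        (A / (2 * q) - O / q) ^ 2 ≤ ε / 4 * N ^ 2 / Q := by
      intro q hq
      rw [mem_Ico] at hq
      have hq0 : (0 : ℝ) < q := by exact_mod_cast (by omega : 0 < q)
      have hqQ : (Q : ℝ) ≤ q := by exact_mod_cast hq.1
      rw [sum_const, hcard, nsmul_eq_mul]
      have e1 : (q : ℝ) * (A / (2 * q) - O / q) ^ 2 = (O - A / 2) ^ 2 / q := by
        field_simp
        ring
      rw [e1]
      calc (O - A / 2) ^ 2 / q ≤ (O - A / 2) ^ 2 / Q :=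
            div_le_div_of_nonneg_left (sq_nonneg _) hQ0 hqQ
        _ ≤ ε / 4 * N ^ 2 / Q := div_le_div_of_nonneg_right hhalf hQ0.le
    refine (sum_le_sum h7).trans (le_of_eq ?_)
    rw [sum_const, Nat.card_Ico, nsmul_eq_mul, show 2 * Q - Q = Q by omega]
    field_simp
  calc ∑ q ∈ Ico Q (2 * Q), ∑ a ∈ (range (2 * q)).filter (fun a => a % 2 = 1),
        ((oddCount s S N q a : ℝ) - O / q) ^ 2
      ≤ ∑ q ∈ Ico Q (2 * Q), ∑ a ∈ (range (2 * q)).filter (fun a => a % 2 = 1),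
        (2 * ((oddCount s S N q a : ℝ) - A / (2 * q)) ^ 2 + 2 * (A / (2 * q) - O / q) ^ 2) := by
        apply sum_le_sum; intro q _
        apply sum_le_sum; intro a _
        nlinarith [sq_nonneg (((oddCount s S N q a : ℝ) - A / (2 * q)) - (A / (2 * q) - O / q))]
    _ = 2 * (∑ q ∈ Ico Q (2 * Q), ∑ a ∈ (range (2 * q)).filter (fun a => a % 2 = 1),
          ((oddCount s S N q a : ℝ) - A / (2 * q)) ^ 2) +
        2 * ∑ q ∈ Ico Q (2 * Q), ∑ a ∈ (range (2 * q)).filter (fun a => a % 2 = 1),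
          (A / (2 * q) - O / q) ^ 2 := by
        simp_rw [sum_add_distrib, mul_sum]
    _ ≤ 2 * (ε / 8 * N ^ 2 + 576 * Q * N) + 2 * (ε / 4 * N ^ 2) := by linarith
    _ ≤ ε * N ^ 2 + 1152 * Q * N := by
        have : 0 ≤ ε * (N : ℝ) ^ 2 := by positivity
        linarith

/-- **small elements in almost all odd classes** -/
theorem missed_odd {S : Set ℤ} (hS : Invariant S) {s : ℤ} (hs : s = 1 ∨ s = -1)
    (hne : ∃ x ∈ S, 0 < s * x) {ε : ℝ} (hε : 0 < ε) :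
    ∃ K Q₀ : ℕ, ∀ Q : ℕ, Q₀ ≤ Q → ((oddMissed s S (K * Q) Q).ncard : ℝ) ≤ ε * Q ^ 2 := by
  obtain ⟨K, Q₀, h⟩ := missed_small hS hs hne (show 0 < ε / 4 by positivity)
  refine ⟨2 * K, Q₀, fun Q hQ => ?_⟩
  have h1 := h (2 * Q) (by omega)
  have hss : ∀ x : ℤ, s * (s * x) = x := by intro x; rcases hs with rfl | rfl <;> ring
  have hfin : (Missed S s (K * (2 * Q)) (2 * Q)).Finite := by
    apply Set.Finite.subset (Finset.finite_toSet (range (4 * Q) ×ˢ range (4 * Q)))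
    rintro ⟨q, a⟩ ⟨_, h2, h3, _⟩
    rw [mem_coe, mem_product, mem_range, mem_range]
    simp only at *
    omega
  have hsub : (fun p : ℕ × ℕ => (2 * p.1, p.2)) '' oddMissed s S (2 * K * Q) Q ⊆
      Missed S s (K * (2 * Q)) (2 * Q) := by
    rintro _ ⟨⟨q, a⟩, ⟨g1, g2, g3, g4, g5⟩, rfl⟩
    simp only at g1 g2 g3 g4 g5
    refine ⟨by show 2 * Q ≤ 2 * q; omega, by show 2 * q < 2 * (2 * Q); omega, g4, ?_⟩
    intro x hx h0 hX ha
    have e : ((s * x).toNat : ℤ) = s * x := Int.toNat_of_nonneg h0.le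
    refine g5 (s * x).toNat ?_ ?_ ?_
    · have : ((K * (2 * Q) : ℕ) : ℤ) = ((2 * K * Q : ℕ) : ℤ) := by push_cast; ring
      omega
    · rw [← Int.natCast_modEq_iff, e]
      exact ha
    · rw [e, hss]; exact hx
  have hinj : Set.InjOn (fun p : ℕ × ℕ => (2 * p.1, p.2)) (oddMissed s S (2 * K * Q) Q) := by
    rintro ⟨q, a⟩ _ ⟨q', a'⟩ _ h
    simp only [Prod.mk.injEq] at h ⊢
    omega
  have h2 := Set.ncard_le_ncard hsub hfin
  rw [hinj.ncard_image] at h2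
  have h3 : ((oddMissed s S (2 * K * Q) Q).ncard : ℝ) ≤ (Missed S s (K * (2 * Q)) (2 * Q)).ncard := by
    exact_mod_cast h2
  refine h3.trans (h1.trans (le_of_eq ?_))
  push_cast
  ring

/-- all pairs -/
theorem pairs_odd (Q : ℕ) :
    Q ^ 2 ≤ {p : ℕ × ℕ | Q ≤ p.1 ∧ p.1 < 2 * Q ∧ p.2 % 2 = 1 ∧ p.2 < 2 * p.1}.ncard := by
  have h : ((Ico Q (2 * Q) ×ˢ (range Q).image (fun a => 2 * a + 1) : Finset (ℕ × ℕ)) : Set (ℕ × ℕ)) ⊆
      {p : ℕ × ℕ | Q ≤ p.1 ∧ p.1 < 2 * Q ∧ p.2 % 2 = 1 ∧ p.2 < 2 * p.1} := by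
    rintro ⟨q, a⟩ h
    rw [mem_coe, mem_product, mem_Ico, mem_image] at h
    obtain ⟨h1, b, hb, hba⟩ := h
    rw [mem_range] at hb
    simp only at h1 hba
    exact ⟨h1.1, h1.2, by simp only; omega, by simp only; omega⟩
  have hfin : {p : ℕ × ℕ | Q ≤ p.1 ∧ p.1 < 2 * Q ∧ p.2 % 2 = 1 ∧ p.2 < 2 * p.1}.Finite := by
    apply Set.Finite.subset (Finset.finite_toSet (range (4 * Q) ×ˢ range (4 * Q)))
    rintro ⟨q, a⟩ ⟨_, h2, _, h3⟩
    rw [mem_coe, mem_product, mem_range, mem_range]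
    simp only at *
    omega
  have h2 := Set.ncard_le_ncard h hfin
  rw [Set.ncard_coe_finset, card_product, Nat.card_Ico, card_image_of_injective _
    (fun x y h => by simpa using h), card_range, show 2 * Q - Q = Q by omega] at h2
  rw [sq]
  exact h2

end Pool.Agent.Q163.WD.OddBdh
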