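import Pool.Agent.Results.MP_edb5be_nt.PointwiseErgodicTheorem

set_option autoImplicit false

/-!
The pointwise ergodic theorem along the odd elements of the sets invariant under the `3x+1` map.
-/

namespace Pool.Agent.Q163.WD.OddErg

open Filter Topology MeasureTheory
open Pool.Agent.Results.MP_edb5be_nt.PointwiseErgodicTheorem (Invariant HasDensity sumAlong)

/-- `1` if `s (2 n - 1) ∈ S`, and `0` otherwise -/
noncomputable def oind (s : ℤ) (S : Set ℤ) (n : ℕ) : ℝ :=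
  S.indicator (fun _ => (1 : ℝ)) (s * (2 * (n : ℤ) - 1))

/-- the tower of height two -/
def tw {X : Type} (R : X → X) : X ⊕ X → X ⊕ X := Sum.elim (fun x => Sum.inr x) (fun x => Sum.inl (R x))

theorem tw_even {X : Type} (R : X → X) (n : ℕ) (x : X) : (tw R)^[2 * n] (Sum.inl x) = Sum.inl (R^[n] x) := by
  induction n with
  | zero => rfl
  | succ n ih =>
    rw [show 2 * (n + 1) = (2 * n + 1) + 1 by ring, Function.iterate_succ_apply',
      Function.iterate_succ_apply', ih, Function.iterate_succ_apply']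
    rfl

theorem tw_odd {X : Type} (R : X → X) (n : ℕ) (x : X) :
    (tw R)^[2 * n + 1] (Sum.inl x) = Sum.inr (R^[n] x) := by
  rw [Function.iterate_succ_apply', tw_even]
  rfl

section
variable {X : Type} [MeasurableSpace X] (μ : Measure X) (R : X → X)

/-- its measure -/
noncomputable def nu : Measure (X ⊕ X) :=
  (2 : ENNReal)⁻¹ • (μ.map Sum.inl + μ.map Sum.inr)

theorem emb_inl : MeasurableEmbedding (Sum.inl : X → X ⊕ X) :=
  ⟨Sum.inl_injective, measurable_inl, fun _ hs => hs.inl_image⟩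

theorem emb_inr : MeasurableEmbedding (Sum.inr : X → X ⊕ X) :=
  ⟨Sum.inr_injective, measurable_inr, fun _ hs => hs.inr_image⟩

instance nu_prob [IsProbabilityMeasure μ] : IsProbabilityMeasure (nu μ) := by
  constructor
  unfold nu
  rw [Measure.smul_apply, Measure.add_apply, Measure.map_apply measurable_inl MeasurableSet.univ,
    Measure.map_apply measurable_inr MeasurableSet.univ, Set.preimage_univ, Set.preimage_univ,
    measure_univ, smul_eq_mul, one_add_one_eq_two]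
  exact ENNReal.inv_mul_cancel (by norm_num) (by norm_num)

theorem tw_meas (hR : Measurable R) : Measurable (tw R) :=
  measurable_inr.sumElim (measurable_inl.comp hR)

theorem tw_mp (hR : MeasurePreserving R μ μ) : MeasurePreserving (tw R) (nu μ) (nu μ) := by
  refine ⟨tw_meas R hR.measurable, ?_⟩
  unfold nu
  rw [Measure.map_smul, Measure.map_add _ _ (tw_meas R hR.measurable),
    Measure.map_map (tw_meas R hR.measurable) measurable_inl,
    Measure.map_map (tw_meas R hR.measurable) measurable_inr]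
  have e1 : tw R ∘ Sum.inl = (Sum.inr : X → X ⊕ X) := rfl
  have e2 : tw R ∘ Sum.inr = (Sum.inl : X → X ⊕ X) ∘ R := rfl
  rw [e1, e2, ← Measure.map_map measurable_inl hR.measurable, hR.map_eq, add_comm]

theorem ae_inl {p : X ⊕ X → Prop} (h : ∀ᵐ y ∂(nu μ), p y) : ∀ᵐ x ∂μ, p (Sum.inl x) := by
  unfold nu at h
  rw [Measure.ae_ennreal_smul_measure_iff (by norm_num), ae_add_measure_iff] at h
  exact ae_of_ae_map measurable_inl.aemeasurable h.1

theorem F_int [IsProbabilityMeasure μ] {f : X → ℝ} (hf : Integrable f μ) :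
    Integrable (Sum.elim (fun _ => (0 : ℝ)) f) (nu μ) := by
  unfold nu
  apply Integrable.smul_measure _ (by norm_num)
  rw [integrable_add_measure]
  constructor
  · rw [emb_inl.integrable_map_iff]
    have : (Sum.elim (fun _ => (0 : ℝ)) f) ∘ (Sum.inl : X → X ⊕ X) = fun _ => 0 := rfl
    rw [this]
    exact integrable_zero _ _ _
  · rw [emb_inr.integrable_map_iff]
    exact hf

end

/-- sums over the odd integers up to `2 N` -/
theorem sum_tower {X : Type} (R : X → X) (f : X → ℝ) (x : X) (c : ℕ → ℝ) (N : ℕ) :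
    ∑ m ∈ Finset.Icc 1 (2 * N), c m * (Sum.elim (fun _ => (0 : ℝ)) (fun y => f (R y))) ((tw R)^[m] (Sum.inl x)) =
      ∑ n ∈ Finset.Icc 1 N, c (2 * n - 1) * f (R^[n] x) := by
  induction N with
  | zero => simp
  | succ N ih =>
    rw [show 2 * (N + 1) = (2 * N + 1) + 1 by ring, Finset.sum_Icc_succ_top (by omega),
      Finset.sum_Icc_succ_top (by omega), ih, Finset.sum_Icc_succ_top (by omega), tw_odd,
      show 2 * N + 1 + 1 = 2 * (N + 1) by ring, tw_even]
    simp only [Sum.elim_inl, Sum.elim_inr, mul_zero, add_zero]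
    rw [show 2 * (N + 1) - 1 = 2 * N + 1 by omega, Function.iterate_succ_apply']

/-- **the odd elements, uniformly** -/
theorem odd_unif {s : ℤ} (hs : s = 1 ∨ s = -1) {X : Type} [MeasurableSpace X] (μ : Measure X)
    [IsProbabilityMeasure μ] (R : X → X) (f : X → ℝ) (hR : MeasurePreserving R μ μ)
    (hf : Integrable f μ) : ∀ᵐ x ∂μ, ∀ ε : ℝ, 0 < ε → ∃ N₀ : ℕ, ∀ S : Set ℤ, Invariant S →
      ∃ δ : ℝ, HasDensity s S δ ∧ ∀ N : ℕ, N₀ ≤ N →
        |∑ n ∈ Finset.Icc 1 N, oind s S n * f (R^[n] x) - δ * ∑ n ∈ Finset.Icc 1 N, f (R^[n] x)| ≤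
          ε * N := by
  obtain ⟨hp, -⟩ := Pool.Agent.Results.MP_edb5be_nt.PointwiseErgodicTheorem.result
  obtain ⟨-, hp2, -, -⟩ := hp s hs
  have hfR : Integrable (fun y => f (R y)) μ := hR.integrable_comp_of_integrable hf
  have h := hp2 (X ⊕ X) (nu μ) (tw R) (Sum.elim (fun _ => (0 : ℝ)) (fun y => f (R y)))
    (tw_mp μ R hR) (F_int μ hfR)
  filter_upwards [ae_inl μ h] with x hx ε hε
  obtain ⟨N₀, h1⟩ := hx.1 (ε / 2) (by positivity)
  refine ⟨N₀, fun S hS => ?_⟩
  obtain ⟨δ, hδ, h2⟩ := h1 S hS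
  refine ⟨δ, hδ, fun N hN => ?_⟩
  have h3 := h2 (2 * N) (by omega)
  unfold sumAlong at h3
  rw [sum_tower R f x (fun m => S.indicator (fun _ => (1 : ℝ)) (s * (m : ℤ))) N] at h3
  have h4 := sum_tower R f x (fun _ => 1) N
  simp only [one_mul] at h4
  rw [h4] at h3
  have e : ∑ n ∈ Finset.Icc 1 N, oind s S n * f (R^[n] x) =
      ∑ n ∈ Finset.Icc 1 N, S.indicator (fun _ => (1 : ℝ)) (s * ((2 * n - 1 : ℕ) : ℤ)) * f (R^[n] x) := by
    apply Finset.sum_congr rfl
    intro n hn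
    rw [Finset.mem_Icc] at hn
    unfold oind
    have : ((2 * n - 1 : ℕ) : ℤ) = 2 * (n : ℤ) - 1 := by omega
    rw [this]
  rw [e]
  refine h3.trans (le_of_eq ?_)
  push_cast
  ring

theorem univ_inv : Invariant Set.univ := fun _ => by simp

/-- Birkhoff's theorem, in the form used here -/
theorem birkhoff {X : Type} [MeasurableSpace X] (μ : Measure X)
    [IsProbabilityMeasure μ] (R : X → X) (f : X → ℝ) (hR : MeasurePreserving R μ μ)
    (hf : Integrable f μ) : ∀ᵐ x ∂μ, Tendsto (fun N : ℕ => (∑ n ∈ Finset.Icc 1 N, f (R^[n] x)) / N) atTop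
      (𝓝 ((μ[f | MeasurableSpace.invariants R]) x)) := by
  obtain ⟨hp, -⟩ := Pool.Agent.Results.MP_edb5be_nt.PointwiseErgodicTheorem.result
  obtain ⟨-, hp2, -, -⟩ := hp 1 (Or.inl rfl)
  filter_upwards [hp2 X μ R f hR hf] with x hx
  refine (hx.2 Set.univ univ_inv ⟨1, trivial, by norm_num⟩).congr fun N => ?_
  have e1 : sumAlong 1 Set.univ N (fun n => f (R^[n] x)) = ∑ n ∈ Finset.Icc 1 N, f (R^[n] x) := by
    unfold sumAlong
    simp
  have e2 : Pool.Agent.Results.MP_edb5be_nt.PointwiseErgodicTheorem.number 1 Set.univ N = N := by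
    unfold Pool.Agent.Results.MP_edb5be_nt.PointwiseErgodicTheorem.number
    have : {n : ℕ | 1 ≤ n ∧ n ≤ N ∧ 1 * (n : ℤ) ∈ (Set.univ : Set ℤ)} = (Finset.Icc 1 N : Finset ℕ) := by
      ext n
      simp
    rw [this, Set.ncard_coe_finset, Nat.card_Icc, Nat.add_sub_cancel]
  rw [e1, e2]

/-- the proportion of the odd elements -/
theorem odd_number {s : ℤ} (hs : s = 1 ∨ s = -1) {S : Set ℤ} (hS : Invariant S) {δ : ℝ}
    (hδ : HasDensity s S δ) :
    Tendsto (fun N : ℕ => (∑ n ∈ Finset.Icc 1 N, oind s S n) / N) atTop (𝓝 δ) := by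
  have h := odd_unif hs (X := Unit) (Measure.dirac ()) id (fun _ => 1) (MeasurePreserving.id _)
    (integrable_const _)
  rw [ae_dirac_eq] at h
  have h1 : ∀ ε : ℝ, 0 < ε → ∃ N₀ : ℕ, ∀ S : Set ℤ, Invariant S →
      ∃ δ : ℝ, HasDensity s S δ ∧ ∀ N : ℕ, N₀ ≤ N →
        |∑ n ∈ Finset.Icc 1 N, oind s S n * 1 - δ * ∑ n ∈ Finset.Icc 1 N, (1 : ℝ)| ≤ ε * N := h
  rw [Metric.tendsto_atTop]
  intro ε hε
  obtain ⟨N₀, h2⟩ := h1 (ε / 2) (by positivity)
  obtain ⟨δ', hδ', h3⟩ := h2 S hS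
  have hdd : δ' = δ := tendsto_nhds_unique hδ' hδ
  refine ⟨max N₀ 1, fun N hN => ?_⟩
  have h4 := h3 N ((le_max_left _ _).trans hN)
  have hN1 : 1 ≤ N := (le_max_right _ _).trans hN
  have hN0 : (0 : ℝ) < N := by exact_mod_cast hN1
  rw [hdd] at h4
  simp only [mul_one, Finset.sum_const, Nat.card_Icc, Nat.add_sub_cancel, nsmul_eq_mul, mul_one] at h4
  rw [Real.dist_eq]
  have e : (∑ n ∈ Finset.Icc 1 N, oind s S n) / N - δ = (∑ n ∈ Finset.Icc 1 N, oind s S n - δ * N) / N := by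
    field_simp
  rw [e, abs_div, abs_of_pos hN0, div_lt_iff₀ hN0]
  have : 0 < ε * N := by positivity
  linarith

/-- **the averages along the odd elements** -/
theorem odd_averages {s : ℤ} (hs : s = 1 ∨ s = -1) {X : Type} [MeasurableSpace X] (μ : Measure X)
    [IsProbabilityMeasure μ] (R : X → X) (f : X → ℝ) (hR : MeasurePreserving R μ μ)
    (hf : Integrable f μ) : ∀ᵐ x ∂μ, ∀ S : Set ℤ, Invariant S → ∀ δ : ℝ, HasDensity s S δ → 0 < δ →
      Tendsto (fun N : ℕ => (∑ n ∈ Finset.Icc 1 N, oind s S n * f (R^[n] x)) /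
        ∑ n ∈ Finset.Icc 1 N, oind s S n) atTop (𝓝 ((μ[f | MeasurableSpace.invariants R]) x)) := by
  filter_upwards [odd_unif hs μ R f hR hf, birkhoff μ R f hR hf] with x h1 h2 S hS δ hδ hδ0
  set L := (μ[f | MeasurableSpace.invariants R]) x with hL
  have h3 : Tendsto (fun N : ℕ => (∑ n ∈ Finset.Icc 1 N, oind s S n * f (R^[n] x)) / N) atTop
      (𝓝 (δ * L)) := by
    have h4 : Tendsto (fun N : ℕ => (∑ n ∈ Finset.Icc 1 N, oind s S n * f (R^[n] x) -
        δ * ∑ n ∈ Finset.Icc 1 N, f (R^[n] x)) / N) atTop (𝓝 0) := by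
      rw [Metric.tendsto_atTop]
      intro ε hε
      obtain ⟨N₀, h5⟩ := h1 (ε / 2) (by positivity)
      obtain ⟨δ', hδ', h6⟩ := h5 S hS
      have hdd : δ' = δ := tendsto_nhds_unique hδ' hδ
      refine ⟨max N₀ 1, fun N hN => ?_⟩
      have h7 := h6 N ((le_max_left _ _).trans hN)
      have hN1 : 1 ≤ N := (le_max_right _ _).trans hN
      have hN0 : (0 : ℝ) < N := by exact_mod_cast hN1
      rw [hdd] at h7
      rw [Real.dist_eq, sub_zero, abs_div, abs_of_pos hN0, div_lt_iff₀ hN0]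
      have : 0 < ε * N := by positivity
      linarith
    have h5 := h4.add (h2.const_mul δ)
    rw [zero_add] at h5
    refine h5.congr fun N => ?_
    ring
  have h4 := h3.div (odd_number hs hS hδ) hδ0.ne'
  rw [mul_div_cancel_left₀ _ hδ0.ne'] at h4
  refine h4.congr' ?_
  filter_upwards [eventually_ge_atTop 1] with N hN
  have hN0 : (0 : ℝ) < N := by exact_mod_cast hN
  simp only [Pi.div_apply]
  rw [div_div_div_cancel_right₀ hN0.ne']

/-- **rare return times are impossible** -/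
theorem odd_rare {s : ℤ} (hs : s = 1 ∨ s = -1) {X : Type} [MeasurableSpace X] (μ : Measure X)
    [IsProbabilityMeasure μ] (R : X → X) (A : Set X) (hR : Ergodic R μ) (hA : MeasurableSet A)
    (hpos : 0 < μ A) {ψ : ℕ → ℝ} (hψ : Tendsto ψ atTop (𝓝 0)) {S : Set ℤ} (hS : Invariant S) {δ : ℝ}
    (hδ : HasDensity s S δ) (hδ0 : 0 < δ) :
    ∀ᵐ x ∂μ, ¬ ∃ᶠ N : ℕ in atTop,
      ({n : ℕ | 1 ≤ n ∧ n ≤ N ∧ s * (2 * (n : ℤ) - 1) ∈ S ∧ R^[n] x ∈ A}.ncard : ℝ) ≤ ψ N * N := by
  classical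
  have hint : Integrable (A.indicator fun _ => (1 : ℝ)) μ :=
    (integrable_const (1 : ℝ)).indicator hA
  have hfm : Measurable (A.indicator fun _ => (1 : ℝ)) := measurable_const.indicator hA
  have hfb : ∀ x, |A.indicator (fun _ => (1 : ℝ)) x| ≤ 1 := by
    intro x
    rw [Set.indicator_apply]
    split_ifs <;> simp
  have hI : ∫ x, A.indicator (fun _ => (1 : ℝ)) x ∂μ = μ.real A := by
    rw [integral_indicator_const (1 : ℝ) hA, smul_eq_mul, mul_one]
  have hL : ∀ᵐ x ∂μ, (μ[A.indicator fun _ => (1 : ℝ) | MeasurableSpace.invariants R]) x = μ.real A := by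
    filter_upwards [Pool.Agent.H165R3.BPE.birkhoff hR.toMeasurePreserving _ hfm 1 hfb,
      Pool.Agent.H165R3.birkhoff hR _ hfm ⟨1, hfb⟩] with x hx2 hx3
    rw [← hI]
    exact tendsto_nhds_unique hx2 hx3
  have hA0 : 0 < μ.real A := ENNReal.toReal_pos hpos.ne' (measure_ne_top _ _)
  filter_upwards [odd_averages hs μ R _ hR.toMeasurePreserving hint, hL] with x h1 h2 hcon
  have h3 := h1 S hS δ hδ hδ0
  rw [h2] at h3
  have h4 := h3.mul (odd_number hs hS hδ)
  have hev : ∀ᶠ N : ℕ in atTop, ψ N < μ.real A * δ / 2 ∧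
      μ.real A * δ / 2 < (∑ n ∈ Finset.Icc 1 N, oind s S n * A.indicator (fun _ => (1 : ℝ)) (R^[n] x)) /
        (∑ n ∈ Finset.Icc 1 N, oind s S n) * ((∑ n ∈ Finset.Icc 1 N, oind s S n) / N) ∧
      0 < (∑ n ∈ Finset.Icc 1 N, oind s S n) / (N : ℝ) ∧ 1 ≤ N := by
    have hc : 0 < μ.real A * δ := by positivity
    filter_upwards [hψ.eventually (gt_mem_nhds (show 0 < μ.real A * δ / 2 by positivity)),
      h4.eventually (lt_mem_nhds (show μ.real A * δ / 2 < μ.real A * δ by linarith)),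
      (odd_number hs hS hδ).eventually (lt_mem_nhds hδ0), eventually_ge_atTop 1] with N a1 a2 a3 a4
    exact ⟨a1, a2, a3, a4⟩
  obtain ⟨N, hN1, hN2, hN3, hN4, hN5⟩ := (hcon.and_eventually hev).exists
  have hN0 : (0 : ℝ) < N := by exact_mod_cast hN5
  have hO0 : 0 < ∑ n ∈ Finset.Icc 1 N, oind s S n := by
    rcases div_pos_iff.1 hN4 with h | h
    · exact h.1
    · linarith [h.2]
  have e1 : (∑ n ∈ Finset.Icc 1 N, oind s S n * A.indicator (fun _ => (1 : ℝ)) (R^[n] x)) /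
        (∑ n ∈ Finset.Icc 1 N, oind s S n) * ((∑ n ∈ Finset.Icc 1 N, oind s S n) / N) =
      (∑ n ∈ Finset.Icc 1 N, oind s S n * A.indicator (fun _ => (1 : ℝ)) (R^[n] x)) / N := by
    field_simp
  have e2 : ∑ n ∈ Finset.Icc 1 N, oind s S n * A.indicator (fun _ => (1 : ℝ)) (R^[n] x) =
      ({n : ℕ | 1 ≤ n ∧ n ≤ N ∧ s * (2 * (n : ℤ) - 1) ∈ S ∧ R^[n] x ∈ A}.ncard : ℝ) := by
    have e3 : {n : ℕ | 1 ≤ n ∧ n ≤ N ∧ s * (2 * (n : ℤ) - 1) ∈ S ∧ R^[n] x ∈ A} =
        ((Finset.Icc 1 N).filter (fun n : ℕ => s * (2 * (n : ℤ) - 1) ∈ S ∧ R^[n] x ∈ A) : Finset ℕ) := by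
      ext n
      simp only [Set.mem_ofPred_eq, Finset.coe_filter, Finset.mem_Icc, and_assoc]
    rw [e3, Set.ncard_coe_finset, Finset.card_filter]
    push_cast
    apply Finset.sum_congr rfl
    intro n _
    unfold oind
    by_cases g1 : s * (2 * (n : ℤ) - 1) ∈ S
    · by_cases g2 : R^[n] x ∈ A
      · rw [Set.indicator_of_mem g1, Set.indicator_of_mem g2, if_pos ⟨g1, g2⟩, mul_one]
      · rw [Set.indicator_of_notMem g2, if_neg (fun h => g2 h.2), mul_zero]
    · rw [Set.indicator_of_notMem g1, if_neg (fun h => g1 h.1), zero_mul]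
  rw [e1, e2, lt_div_iff₀ hN0] at hN3
  have : ψ N * N < μ.real A * δ / 2 * N := mul_lt_mul_of_pos_right hN2 hN0
  linarith

end Pool.Agent.Q163.WD.OddErg
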