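import Pool.Agent.Results.MP_d02c56_nt.WaringProblem

set_option autoImplicit false

/-!
Waring's problem with one odd summand in a set invariant under the Collatz map.
-/

namespace Pool.Agent.Q163.WD.OddWar

open Filter Topology Polynomial
open Pool.Agent.Results.MP_d02c56_nt.WaringProblem (Invariant HasDensity reps vals)

/-- the `k`-th powers of the even and of the odd integers, as polynomials -/
noncomputable def pw (k e : ℕ) : Polynomial ℤ := (C 2 * X + C (e : ℤ)) ^ k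

theorem pw_deg (k e : ℕ) : (pw k e).natDegree = k := by
  unfold pw
  rw [natDegree_pow, natDegree_linear (by norm_num), mul_one]

theorem pw_eval (k e : ℕ) (m : ℤ) : (pw k e).eval m = (2 * m + e) ^ k := by
  unfold pw
  simp

/-- The integer `n - (2 m 0 + e) ^ k - ∑_{j ≥ 1} (2 m j) ^ k`, where `e = 0` or `1`, `n - e` odd. -/
def rest (k n : ℕ) {r : ℕ} (m : Fin (r + 1) → ℕ) : ℤ :=
  (n : ℤ) - (2 * (m 0 : ℤ) + ((n + 1) % 2 : ℕ)) ^ k - ∑ j : Fin r, (2 * (m j.succ : ℤ)) ^ k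

theorem rest_odd {k : ℕ} (hk : 1 ≤ k) (n : ℕ) {r : ℕ} (m : Fin (r + 1) → ℕ) : rest k n m % 2 = 1 := by
  unfold rest
  have h1 : ∀ x : ℤ, (2 * x) ^ k % 2 = 0 := by
    intro x
    rw [mul_pow]
    obtain ⟨j, rfl⟩ : ∃ j, k = j + 1 := ⟨k - 1, by omega⟩
    rw [pow_succ, show (2 : ℤ) ^ j * 2 * x ^ (j + 1) = 2 * (2 ^ j * x ^ (j + 1)) by ring]
    exact Int.mul_emod_right _ _
  have h2 : (∑ j : Fin r, (2 * (m j.succ : ℤ)) ^ k) % 2 = 0 := by
    exact Int.emod_eq_zero_of_dvd (Finset.dvd_sum fun j _ => Int.dvd_of_emod_eq_zero (h1 _))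
  have h3 : (2 * (m 0 : ℤ) + ((n + 1) % 2 : ℕ)) ^ k % 2 = ((n + 1) % 2 : ℕ) := by
    rcases Nat.mod_two_eq_zero_or_one (n + 1) with h | h
    · rw [h]
      push_cast
      rw [add_zero]
      exact h1 _
    · rw [h]
      have ho : Odd ((2 * (m 0 : ℤ) + ((1 : ℕ) : ℤ)) ^ k) := by
        apply Odd.pow
        exact ⟨m 0, by push_cast; ring⟩
      rw [Int.odd_iff] at ho
      exact ho
  omega

/-- The number of the tuples `m` with `1 ≤ m j ≤ L` and `s · rest ∈ S`. -/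
noncomputable def tuples (s : ℤ) (S : Set ℤ) (k r n L : ℕ) : ℕ :=
  {m : Fin (r + 1) → ℕ | (∀ j, 1 ≤ m j ∧ m j ≤ L) ∧ s * rest k n m ∈ S}.ncard

/-- the polynomials -/
noncomputable def poly (k n r : ℕ) : Fin (r + 1) → Polynomial ℤ :=
  Fin.cons (pw k ((n + 1) % 2)) (fun _ => pw k 0)

theorem sum_poly (k n r L : ℕ) (v : Fin (r + 1) → Fin L) :
    (n : ℤ) - ∑ j, vals (poly k n r j) L (v j) = rest k n (fun j => (v j : ℕ) + 1) := by
  rw [Fin.sum_univ_succ]
  unfold rest vals poly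
  simp only [Fin.cons_zero, Fin.cons_succ, pw_eval]
  push_cast
  have e : ∀ j : Fin r, (2 * (((v j.succ : ℕ) : ℤ) + 1) + 0) ^ k = (2 * (((v j.succ : ℕ) : ℤ) + 1)) ^ k := by
    intro j; rw [add_zero]
  simp only [e]
  ring

theorem rest_pos {k n r L : ℕ} (h : (r + 1) * (2 * L + 1) ^ k < n) (m : Fin (r + 1) → ℕ)
    (hm : ∀ j, 1 ≤ m j ∧ m j ≤ L) : 0 < rest k n m := by
  unfold rest
  have h1 : (2 * (m 0 : ℤ) + ((n + 1) % 2 : ℕ)) ^ k ≤ (2 * L + 1) ^ k := by
    apply pow_le_pow_left₀ (by positivity)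
    have := (hm 0).2
    have h3 : (n + 1) % 2 ≤ 1 := by omega
    have h4 : (((n + 1) % 2 : ℕ) : ℤ) ≤ 1 := by exact_mod_cast h3
    have h5 : (m 0 : ℤ) ≤ L := by exact_mod_cast this
    linarith
  have h2 : ∑ j : Fin r, (2 * (m j.succ : ℤ)) ^ k ≤ r * (2 * L + 1) ^ k := by
    calc ∑ j : Fin r, (2 * (m j.succ : ℤ)) ^ k ≤ ∑ _j : Fin r, (2 * (L : ℤ) + 1) ^ k := by
          apply Finset.sum_le_sum
          intro j _
          apply pow_le_pow_left₀ (by positivity)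
          have := (hm j.succ).2
          have h5 : (m j.succ : ℤ) ≤ L := by exact_mod_cast this
          linarith
      _ = r * (2 * L + 1) ^ k := by rw [Finset.sum_const, Finset.card_univ, Fintype.card_fin, nsmul_eq_mul]
  have h3 : ((r : ℤ) + 1) * (2 * L + 1) ^ k < n := by exact_mod_cast h
  linarith

theorem tuples_eq {s : ℤ} {S : Set ℤ} {k r n L : ℕ} (h : (r + 1) * (2 * L + 1) ^ k < n) :
    reps s S n (fun j => vals (poly k n r j) L) = tuples s S k r n L := by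
  unfold reps tuples
  rw [← Set.ncard_image_of_injective (f := fun (v : Fin (r + 1) → Fin L) (j : Fin (r + 1)) => (v j : ℕ) + 1)]
  · congr 1
    ext m
    simp only [Set.mem_image, Set.mem_ofPred_eq]
    constructor
    · rintro ⟨v, ⟨h1, h2⟩, rfl⟩
      rw [sum_poly] at h2
      exact ⟨fun j => ⟨Nat.le_add_left _ _, Nat.succ_le_of_lt (v j).isLt⟩, h2⟩
    · rintro ⟨h1, h2⟩
      refine ⟨fun j => ⟨m j - 1, by have := h1 j; omega⟩, ?_, ?_⟩
      · have e : (fun j => ((⟨m j - 1, by have := h1 j; omega⟩ : Fin L) : ℕ) + 1) = m := by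
          funext j
          have := h1 j
          simp only
          omega
        have h3 := sum_poly k n r L (fun j => ⟨m j - 1, by have := h1 j; omega⟩)
        rw [h3, e]
        exact ⟨rest_pos h m h1, h2⟩
      · funext j
        have := h1 j
        simp only
        omega
  · intro v w hvw
    funext j
    have := congrFun hvw j
    simp only at this
    exact Fin.ext (by omega)

theorem tuples_univ (s : ℤ) (k r n L : ℕ) : tuples s Set.univ k r n L = L ^ (r + 1) := by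
  unfold tuples
  have : {m : Fin (r + 1) → ℕ | (∀ j, 1 ≤ m j ∧ m j ≤ L) ∧ s * rest k n m ∈ Set.univ} =
      ((Fintype.piFinset fun _ : Fin (r + 1) => Finset.Icc 1 L) : Finset (Fin (r + 1) → ℕ)) := by
    ext m
    simp [Pi.le_def, forall_and]
  rw [this, Set.ncard_coe_finset, Fintype.card_piFinset]
  simp

/-- **Waring's problem with one odd summand in an invariant set.** -/
theorem odd_waring {k : ℕ} (hk : 1 ≤ k) : ∃ r₀ : ℕ, ∀ r : ℕ, r₀ ≤ r → ∀ s : ℤ, (s = 1 ∨ s = -1) →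
    ∀ (B : ℕ) (ε : ℝ), 0 < ε → ∃ n₀ : ℕ, ∀ S : Set ℤ, Invariant S → ∃ δ : ℝ, HasDensity s S δ ∧
      ∀ n : ℕ, n₀ ≤ n → ∀ L : ℕ, (r + 1) * (2 * L + 1) ^ k < n → n ≤ B * L ^ k →
        |(tuples s S k r n L : ℝ) - δ * (L : ℝ) ^ (r + 1)| ≤ ε * (L : ℝ) ^ (r + 1) := by
  obtain ⟨-, h2, -⟩ := Pool.Agent.Results.MP_d02c56_nt.WaringProblem.result
  obtain ⟨r₀, h⟩ := h2 {pw k 0, pw k 1} (by
    intro P hP
    rw [Finset.mem_insert, Finset.mem_singleton] at hP
    rcases hP with rfl | rfl <;> rw [pw_deg] <;> exact hk)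
  refine ⟨r₀, fun r hr s hs B ε hε => ?_⟩
  obtain ⟨N₀, h3⟩ := h (r + 1) (by omega) s hs (B + 1) ε hε
  refine ⟨N₀, fun S hS => ?_⟩
  obtain ⟨δ, hδ, h4⟩ := h3 S hS
  refine ⟨δ, hδ, fun n hn L hL1 hL2 => ?_⟩
  have hpol : ∀ j, poly k n r j = pw k ((n + 1) % 2) ∨ poly k n r j = pw k 0 := by
    intro j
    refine Fin.cases ?_ (fun i => ?_) j
    · left; rfl
    · right; rfl
  have h5 := h4 n hn (poly k n r) (by
      intro j
      rw [Finset.mem_insert, Finset.mem_singleton]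
      rcases hpol j with h | h
      · rcases Nat.mod_two_eq_zero_or_one (n + 1) with h' | h'
        · rw [h', ] at h; exact Or.inl h
        · rw [h'] at h; exact Or.inr h
      · exact Or.inl h) (fun _ => L) (by
      intro j m hm1 hm2
      have hb : ∀ e : ℕ, e ≤ 1 → |(pw k e).eval (m : ℤ)| ≤ n := by
        intro e he
        rw [pw_eval, abs_of_nonneg (by positivity)]
        have a1 : (2 * (m : ℤ) + e) ^ k ≤ (2 * L + 1) ^ k := by
          apply pow_le_pow_left₀ (by positivity)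
          have a2 : (m : ℤ) ≤ L := by exact_mod_cast hm2
          have a3 : (e : ℤ) ≤ 1 := by exact_mod_cast he
          linarith
        have a4 : ((2 * L + 1) ^ k : ℤ) ≤ n := by
          have : (2 * L + 1) ^ k ≤ n := by
            have : (2 * L + 1) ^ k ≤ (r + 1) * (2 * L + 1) ^ k := Nat.le_mul_of_pos_left _ (by omega)
            omega
          exact_mod_cast this
        linarith
      rcases hpol j with h | h
      · rw [h]; exact hb _ (by omega)
      · rw [h]; exact hb _ (by omega)) (by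
      intro j
      have : (poly k n r j).natDegree = k := by
        rcases hpol j with h | h <;> rw [h, pw_deg]
      rw [this]
      exact hL2.trans (Nat.mul_le_mul_right _ (by omega))) n (by
      rw [abs_of_nonneg (by positivity)]
      have : n ≤ (B + 1) * n := Nat.le_mul_of_pos_left _ (by omega)
      exact_mod_cast this)
  rw [tuples_eq hL1, tuples_eq hL1, tuples_univ] at h5
  rw [Finset.prod_const, Finset.card_univ, Fintype.card_fin] at h5
  push_cast at h5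
  exact h5

/-- a suitable length `L` -/
theorem exists_len {k : ℕ} (hk : 1 ≤ k) (r : ℕ) : ∃ B n₁ : ℕ, ∀ n : ℕ, n₁ ≤ n →
    ∃ L : ℕ, 1 ≤ L ∧ (r + 1) * (2 * L + 1) ^ k < n ∧ n ≤ B * L ^ k := by
  refine ⟨(r + 1) * 5 ^ k, (r + 1) * 3 ^ k + 1, fun n hn => ?_⟩
  have hP0 : (r + 1) * (2 * 1 + 1) ^ k < n := by
    have h3 : (2 * 1 + 1 : ℕ) = 3 := rfl
    rw [h3]
    omega
  have hbd : ∃ M : ℕ, ¬ (r + 1) * (2 * M + 1) ^ k < n := by
    refine ⟨n, ?_⟩
    rw [not_lt]
    calc n ≤ 2 * n + 1 := by omega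
      _ = (2 * n + 1) ^ 1 := (pow_one _).symm
      _ ≤ (2 * n + 1) ^ k := Nat.pow_le_pow_right (by omega) hk
      _ ≤ (r + 1) * (2 * n + 1) ^ k := Nat.le_mul_of_pos_left _ (by omega)
  classical
  have h1 := Nat.find_spec hbd
  have h2 : ∀ j < Nat.find hbd, (r + 1) * (2 * j + 1) ^ k < n := fun j hj => by
    by_contra hcon
    exact Nat.find_min hbd hj hcon
  have h3 : 2 ≤ Nat.find hbd := by
    by_contra hlt
    have : Nat.find hbd = 0 ∨ Nat.find hbd = 1 := by omega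
    rcases this with h | h
    · rw [h] at h1
      apply h1
      have : (2 * 0 + 1) ^ k ≤ (2 * 1 + 1) ^ k := Nat.pow_le_pow_left (by omega) k
      exact lt_of_le_of_lt (Nat.mul_le_mul_left _ this) hP0
    · rw [h] at h1; exact h1 hP0
  refine ⟨Nat.find hbd - 1, by omega, h2 _ (by omega), ?_⟩
  rw [not_lt] at h1
  obtain ⟨L, hL⟩ : ∃ L, Nat.find hbd = L + 1 := ⟨Nat.find hbd - 1, by omega⟩
  rw [hL] at h1 ⊢
  rw [Nat.add_sub_cancel]
  have hL1 : 1 ≤ L := by omega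
  calc n ≤ (r + 1) * (2 * (L + 1) + 1) ^ k := h1
    _ ≤ (r + 1) * (5 * L) ^ k := Nat.mul_le_mul_left _ (Nat.pow_le_pow_left (by omega) k)
    _ = (r + 1) * 5 ^ k * L ^ k := by rw [mul_pow]; ring

/-- **every large integer is a sum of `|x|`, `x ∈ S` odd of sign `s`, and of `r` positive `k`-th powers** -/
theorem odd_sums {k : ℕ} (hk : 1 ≤ k) : ∃ r₀ : ℕ, ∀ r : ℕ, r₀ ≤ r → ∀ s : ℤ, (s = 1 ∨ s = -1) →
    ∀ S : Set ℤ, Invariant S → ∀ δ : ℝ, HasDensity s S δ → 0 < δ → ∃ n₀ : ℕ, ∀ n : ℕ, n₀ ≤ n →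
      ∃ x : ℕ, x % 2 = 1 ∧ s * (x : ℤ) ∈ S ∧ ∃ m : Fin (r + 1) → ℕ, (∀ j, 1 ≤ m j) ∧
        n = x + ∑ j, m j ^ k := by
  obtain ⟨r₀, h⟩ := odd_waring hk
  refine ⟨r₀, fun r hr s hs S hS δ hδ hδ0 => ?_⟩
  obtain ⟨B, n₁, hB⟩ := exists_len hk r
  obtain ⟨n₀, h1⟩ := h r hr s hs B (δ / 2) (by positivity)
  obtain ⟨δ', hδ', h2⟩ := h1 S hS
  have hdd : δ' = δ := tendsto_nhds_unique hδ' hδ
  refine ⟨max n₀ n₁, fun n hn => ?_⟩
  obtain ⟨L, hL1, hL2, hL3⟩ := hB n ((le_max_right _ _).trans hn)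
  have h3 := h2 n ((le_max_left _ _).trans hn) L hL2 hL3
  rw [hdd, abs_le] at h3
  have hL0 : (0 : ℝ) < (L : ℝ) ^ (r + 1) := by
    have : (0 : ℝ) < L := by exact_mod_cast hL1
    positivity
  have h4 : 0 < (tuples s S k r n L : ℝ) := by
    have := h3.1
    nlinarith
  have h5 : 0 < tuples s S k r n L := by exact_mod_cast h4
  unfold tuples at h5
  obtain ⟨m, hm1, hm2⟩ := (Set.ncard_pos (Set.finite_of_ncard_pos h5)).1 h5
  have hpos := rest_pos hL2 m hm1
  have hodd := rest_odd hk n m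
  obtain ⟨x, hx⟩ : ∃ x : ℕ, (x : ℤ) = rest k n m := ⟨(rest k n m).toNat, Int.toNat_of_nonneg hpos.le⟩
  refine ⟨x, by omega, by rw [hx]; exact hm2,
    Fin.cons (2 * m 0 + (n + 1) % 2) (fun j => 2 * m j.succ), ?_, ?_⟩
  · intro j
    refine Fin.cases ?_ (fun i => ?_) j
    · rw [Fin.cons_zero]; have := (hm1 0).1; omega
    · rw [Fin.cons_succ]; have := (hm1 i.succ).1; omega
  · rw [Fin.sum_univ_succ]
    simp only [Fin.cons_zero, Fin.cons_succ]
    unfold rest at hx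
    have : (n : ℤ) = x + ((2 * (m 0 : ℤ) + ((n + 1) % 2 : ℕ)) ^ k + ∑ j : Fin r, (2 * (m j.succ : ℤ)) ^ k) := by
      linarith
    exact_mod_cast this

end Pool.Agent.Q163.WD.OddWar
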